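import Pool.Agent.Y761.EV.ModelA

set_option autoImplicit false
set_option linter.unusedSectionVars false

/-!
# EV-MODEL: models of the Bernoulli action
-/

namespace Pool.Agent.Y761.EV

open MeasureTheory Set Filter Topology Pool.Agent.Y316.PC Pool.Agent.Y316.EV
open scoped ENNReal NNReal BoundedContinuousFunction

section dens

variable {Γ : Type}

/-- the characters as continuous maps -/
def chC (T : Finset (Γ × ℕ)) : C(KK Γ, ℝ) := ⟨ch T, continuous_ch T⟩

/-- combinations of characters are dense -/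
theorem approx (g : C(KK Γ, ℝ)) {ε : ℝ} (hε : 0 < ε) :
    ∃ p ∈ Submodule.span ℝ (range (chC : Finset (Γ × ℕ) → C(KK Γ, ℝ))), ‖p - g‖ < ε := by
  classical
  set s : Set C(KK Γ, ℝ) := range (fun z : Γ × ℕ => chC {z}) with hs
  set A : Subalgebra ℝ C(KK Γ, ℝ) := Algebra.adjoin ℝ s with hAdef
  have hA : A.SeparatesPoints := by
    intro x y hxy
    obtain ⟨z, hz⟩ := Function.ne_iff.1 hxy
    refine ⟨chC {z}, ⟨chC {z}, Algebra.subset_adjoin ⟨z, rfl⟩, rfl⟩, ?_⟩
    show ch {z} x ≠ ch {z} y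
    unfold ch
    rw [Finset.prod_singleton, Finset.prod_singleton]
    rcases zmod_two (x z) with hx | hx <;> rcases zmod_two (y z) with hy | hy
    · exact absurd (hx.trans hy.symm) hz
    · rw [hx, hy, sg_zero, sg_one]; norm_num
    · rw [hx, hy, sg_zero, sg_one]; norm_num
    · exact absurd (hx.trans hy.symm) hz
  obtain ⟨⟨p, hp⟩, h⟩ :=
    ContinuousMap.exists_mem_subalgebra_near_continuousMap_of_separatesPoints A hA g ε hε
  refine ⟨p, ?_, h⟩
  have h1 : p ∈ Subalgebra.toSubmodule A := hp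
  rw [hAdef, Algebra.adjoin_eq_span] at h1
  refine Submodule.span_mono ?_ h1
  intro q hq
  induction hq using Submonoid.closure_induction_left with
  | one => exact ⟨∅, ContinuousMap.ext fun w => ch_empty w⟩
  | mul_left x hx y hy ih =>
    obtain ⟨z, rfl⟩ := hx
    obtain ⟨T, rfl⟩ := ih
    by_cases hz : z ∈ T
    · refine ⟨T.erase z, ContinuousMap.ext fun w => ?_⟩
      show ch (T.erase z) w = ch {z} w * ch T w
      unfold ch
      rw [Finset.prod_singleton, ← Finset.mul_prod_erase T _ hz, ← mul_assoc, sg_mul_self, one_mul]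
    · refine ⟨insert z T, ContinuousMap.ext fun w => ?_⟩
      show ch (insert z T) w = ch {z} w * ch T w
      unfold ch
      rw [Finset.prod_singleton, Finset.prod_insert hz]

end dens

/-- the space of all words -/
abbrev SW (V : ℕ → Type) : Type := Σ n : ℕ, Σ m : ℕ, (V n → Fin m → ZMod 2)

section law

variable {Γ : Type} [Group Γ] {V : ℕ → Type} [∀ n, MulAction Γ (V n)] [∀ n, Fintype (V n)]

/-- the average over the points of `V` -/
noncomputable def avg (s : SW V) (g : KK Γ → ℝ) : ℝ :=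
  (∑ v : V s.1, g (kap s.2.2 v)) / (Fintype.card (V s.1) : ℝ)

theorem avg_add (s : SW V) (g g' : KK Γ → ℝ) :
    avg s (fun w => g w + g' w) = avg s g + avg s g' := by
  unfold avg
  rw [Finset.sum_add_distrib, add_div]

theorem avg_smul (s : SW V) (c : ℝ) (g : KK Γ → ℝ) :
    avg s (fun w => c * g w) = c * avg s g := by
  unfold avg
  rw [← Finset.mul_sum, mul_div_assoc]

theorem avg_sub_le (s : SW V) (g g' : KK Γ → ℝ) {b : ℝ} (hb : 0 ≤ b)
    (h : ∀ w, |g w - g' w| ≤ b) : |avg s g - avg s g'| ≤ b := by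
  unfold avg
  rw [← sub_div, ← Finset.sum_sub_distrib, abs_div, Nat.abs_cast]
  refine div_le_of_le_mul₀ (Nat.cast_nonneg _) hb ?_
  refine (Finset.abs_sum_le_sum_abs _ _).trans ?_
  refine (Finset.sum_le_sum fun v _ => h _).trans (le_of_eq ?_)
  rw [Finset.sum_const, Finset.card_univ, nsmul_eq_mul, mul_comm]

variable [Countable Γ]

/-- the deviations -/
noncomputable def dev (Γ : Type) [Group Γ] [Countable Γ] (V : ℕ → Type) [∀ n, MulAction Γ (V n)]
    [∀ n, Fintype (V n)] (s : SW V) (T : Finset (Γ × ℕ)) : ℝ :=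
  avg s (ch T) - ∫ w, ch T w ∂(haarK Γ)

/-- the words for which the averages of the characters are near their integrals -/
noncomputable def LW (Γ : Type) [Group Γ] [Countable Γ] (V : ℕ → Type) [∀ n, MulAction Γ (V n)]
    [∀ n, Fintype (V n)] : Filter (SW V) := comap (dev Γ V) (𝓝 0)

theorem tendsto_ch (T : Finset (Γ × ℕ)) :
    Tendsto (fun s : SW V => avg s (ch T)) (LW Γ V) (𝓝 (∫ w, ch T w ∂(haarK Γ))) := by
  have h1 : Tendsto (fun s : SW V => dev Γ V s T) (LW Γ V) (𝓝 0) :=
    ((continuous_apply T).tendsto (0 : Finset (Γ × ℕ) → ℝ)).comp tendsto_comap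
  have h2 := h1.add_const (∫ w, ch T w ∂(haarK Γ))
  rw [zero_add] at h2
  refine h2.congr fun s => ?_
  unfold dev
  ring

theorem integ (p : C(KK Γ, ℝ)) : Integrable p (haarK Γ) :=
  Integrable.of_bound p.continuous.measurable.aestronglyMeasurable ‖p‖
    (Eventually.of_forall p.norm_coe_le_norm)

theorem tendsto_span (p : C(KK Γ, ℝ))
    (hp : p ∈ Submodule.span ℝ (range (chC : Finset (Γ × ℕ) → C(KK Γ, ℝ)))) :
    Tendsto (fun s : SW V => avg s p) (LW Γ V) (𝓝 (∫ w, p w ∂(haarK Γ))) := by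
  induction hp using Submodule.span_induction with
  | mem x h =>
    obtain ⟨T, rfl⟩ := h
    exact tendsto_ch T
  | zero =>
    have h1 : ∀ s : SW V, avg s (fun _ : KK Γ => (0 : ℝ)) = 0 := by
      intro s
      unfold avg
      simp
    show Tendsto (fun s : SW V => avg s (fun _ : KK Γ => (0 : ℝ))) (LW Γ V)
      (𝓝 (∫ _w, (0 : ℝ) ∂(haarK Γ)))
    rw [integral_zero]
    exact tendsto_const_nhds.congr fun s => (h1 s).symm
  | add x y _ _ hx hy =>
    have h1 := hx.add hy
    rw [← integral_add (integ x) (integ y)] at h1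
    exact h1.congr fun s => (avg_add s x y).symm
  | smul c x _ hx =>
    have h1 := hx.const_mul c
    rw [← integral_const_mul] at h1
    exact h1.congr fun s => (avg_smul s c x).symm

theorem tendsto_cont (g : C(KK Γ, ℝ)) :
    Tendsto (fun s : SW V => avg s g) (LW Γ V) (𝓝 (∫ w, g w ∂(haarK Γ))) := by
  rw [Metric.tendsto_nhds]
  intro ε hε
  obtain ⟨p, hp, hpg⟩ := approx g (show 0 < ε / 3 by positivity)
  have h1 := (Metric.tendsto_nhds.1 (tendsto_span (V := V) p hp)) (ε / 3) (by positivity)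
  filter_upwards [h1] with s hs
  have h0 : ∀ w, |p w - g w| ≤ ε / 3 := by
    intro w
    have := (p - g).norm_coe_le_norm w
    rw [Real.norm_eq_abs] at this
    exact this.trans hpg.le
  have h2 : |avg s p - avg s g| ≤ ε / 3 := avg_sub_le s p g (by positivity) h0
  have h3 : |∫ w, p w ∂(haarK Γ) - ∫ w, g w ∂(haarK Γ)| ≤ ε / 3 := by
    rw [← integral_sub (integ p) (integ g)]
    have h4 := norm_integral_le_of_norm_le_const (μ := haarK Γ) (C := ε / 3)
      (f := fun w => p w - g w) (Eventually.of_forall fun w => by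
        rw [Real.norm_eq_abs]; exact h0 w)
    rwa [probReal_univ, mul_one, Real.norm_eq_abs] at h4
  rw [Real.dist_eq] at hs ⊢
  have e : avg s g - ∫ w, g w ∂(haarK Γ) = -(avg s p - avg s g) +
      (avg s p - ∫ w, p w ∂(haarK Γ)) + (∫ w, p w ∂(haarK Γ) - ∫ w, g w ∂(haarK Γ)) := by ring
  rw [e]
  have h5 := abs_add_le (-(avg s p - avg s g) + (avg s p - ∫ w, p w ∂(haarK Γ)))
    (∫ w, p w ∂(haarK Γ) - ∫ w, g w ∂(haarK Γ))
  have h6 := abs_add_le (-(avg s p - avg s g)) (avg s p - ∫ w, p w ∂(haarK Γ))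
  rw [abs_neg] at h6
  linarith

/-- integration over the first coordinate -/
noncomputable def fst (f : (KK Γ × KK Γ) →ᵇ ℝ) : C(KK Γ, ℝ) :=
  ⟨fun w => ∫ k, f (k, w) ∂(haarK Γ), by
    refine continuous_of_dominated (bound := fun _ => ‖f‖) (fun w => ?_) (fun w => ?_)
      (integrable_const _) ?_
    · exact (f.continuous.comp (continuous_id.prodMk
        continuous_const)).measurable.aestronglyMeasurable
    · exact Eventually.of_forall fun k => f.norm_coe_le_norm _
    · exact Eventually.of_forall fun k => f.continuous.comp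
        (continuous_const.prodMk continuous_id)⟩

variable [∀ n, Nonempty (V n)] [∀ n, MeasurableSpace (V n)] [∀ n, DiscreteMeasurableSpace (V n)]

omit [∀ n, Nonempty (V n)] in
theorem meas_ph {n m : ℕ} (a : V n → Fin m → ZMod 2) :
    Measurable (fun p : KK Γ × V n => ((p.1, (kap a p.2 : KK Γ)) : KK Γ × KK Γ)) :=
  measurable_fst.prodMk ((Measurable.of_discrete (f := fun v : V n => (kap a v : KK Γ))).comp
    measurable_snd)

theorem vol_ne (n : ℕ) : vol Γ (V n) univ ≠ 0 := by
  intro h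
  have h1 := vol_univ (Γ := Γ) (V := V n)
  rw [h, ENNReal.toReal_zero] at h1
  have h2 : (0 : ℝ) < Fintype.card (V n) := by exact_mod_cast Fintype.card_pos
  linarith

theorem prob_ph {n m : ℕ} (a : V n → Fin m → ZMod 2) :
    IsProbabilityMeasure ((vol Γ (V n) univ)⁻¹ •
      (vol Γ (V n)).map (fun p => ((p.1, (kap a p.2 : KK Γ)) : KK Γ × KK Γ))) := by
  constructor
  rw [Measure.smul_apply, Measure.map_apply (meas_ph a) MeasurableSet.univ, preimage_univ,
    smul_eq_mul, ENNReal.inv_mul_cancel (vol_ne n) (measure_ne_top _ _)]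

/-- the law of the map of a word -/
noncomputable def kp (Γ : Type) [Group Γ] [Countable Γ] (V : ℕ → Type) [∀ n, MulAction Γ (V n)]
    [∀ n, Fintype (V n)] [∀ n, Nonempty (V n)] [∀ n, MeasurableSpace (V n)]
    [∀ n, DiscreteMeasurableSpace (V n)] (s : SW V) : ProbabilityMeasure (KK Γ × KK Γ) :=
  ⟨(vol Γ (V s.1) univ)⁻¹ •
      (vol Γ (V s.1)).map (fun p => ((p.1, (kap s.2.2 p.2 : KK Γ)) : KK Γ × KK Γ)), prob_ph s.2.2⟩

theorem integral_kp (f : (KK Γ × KK Γ) →ᵇ ℝ) (s : SW V) :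
    ∫ y, f y ∂(kp Γ V s : Measure (KK Γ × KK Γ)) = avg s (fst f) := by
  have h0 : (kp Γ V s : Measure (KK Γ × KK Γ)) = (vol Γ (V s.1) univ)⁻¹ •
      (vol Γ (V s.1)).map (fun p => ((p.1, (kap s.2.2 p.2 : KK Γ)) : KK Γ × KK Γ)) := rfl
  rw [h0, integral_smul_measure, integral_map (meas_ph s.2.2).aemeasurable
      f.continuous.measurable.aestronglyMeasurable, ENNReal.toReal_inv, smul_eq_mul, vol_univ,
    int_vol (h := fun p : KK Γ × V s.1 => f (p.1, (kap s.2.2 p.2 : KK Γ)))
      (f.continuous.measurable.comp (meas_ph s.2.2)) (B := ‖f‖)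
      (fun p => f.norm_coe_le_norm _)]
  unfold avg
  rw [div_eq_inv_mul]
  rfl

theorem tendsto_kp (μ : ProbabilityMeasure (KK Γ × KK Γ))
    (hμ : (μ : Measure (KK Γ × KK Γ)) = (haarK Γ).prod (haarK Γ)) :
    Tendsto (kp Γ V) (LW Γ V) (𝓝 μ) := by
  rw [ProbabilityMeasure.tendsto_iff_forall_integral_tendsto]
  intro f
  have h1 : ∫ y, f y ∂(μ : Measure (KK Γ × KK Γ)) = ∫ w, fst f w ∂(haarK Γ) := by
    rw [hμ, integral_prod_symm]
    · rfl
    · exact Integrable.of_bound f.continuous.measurable.aestronglyMeasurable ‖f‖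
        (Eventually.of_forall fun y => f.norm_coe_le_norm y)
  rw [h1]
  exact (tendsto_cont (V := V) (fst f)).congr fun s => (integral_kp f s).symm

end law

theorem model : S_MODEL := by
  intro Γ _ _ _ V _ _ _ _ _ F hmono hex hb μ hμ O hO hμO
  have : ∀ n, Fintype (V n) := fun n => Fintype.ofFinite (V n)
  have hb' : ∀ n, ({v : V n | ¬ InjOn (fun γ : Γ => γ • v) (F n)}.ncard : ℝ) ≤
      (1 / ((n : ℝ) + 1)) * (Fintype.card (V n) : ℝ) := by
    intro n
    rw [← Nat.card_eq_fintype_card]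
    exact hb n
  have h1 : {s : SW V | kp Γ V s ∈ O} ∈ LW Γ V := tendsto_kp μ hμ (hO.mem_nhds hμO)
  obtain ⟨U, hU, hUs⟩ := mem_comap.1 h1
  rw [nhds_pi, Filter.mem_pi'] at hU
  obtain ⟨I, t, ht, hI⟩ := hU
  have h2 : ∀ᶠ ε in 𝓝[>] (0 : ℝ), ∀ T ∈ I, Metric.ball (0 : ℝ) ε ⊆ t T := by
    refine (Filter.eventually_all_finset I).2 fun T _ => ?_
    obtain ⟨e, he, het⟩ := Metric.mem_nhds_iff.1 (ht T)
    filter_upwards [Ioo_mem_nhdsGT he] with ε hε
    exact (Metric.ball_subset_ball hε.2.le).trans het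
  obtain ⟨ε, h3, hε⟩ := (h2.and self_mem_nhdsWithin).exists
  filter_upwards [family (V := V) hmono hex hb' I hε] with n hn
  obtain ⟨m, a, ha⟩ := hn
  refine ⟨m, a, kp Γ V ⟨n, m, a⟩, ?_, rfl⟩
  have h4 : (⟨n, m, a⟩ : SW V) ∈ dev Γ V ⁻¹' U := by
    apply hI
    intro T hT
    apply h3 T hT
    rw [mem_ball_zero_iff, Real.norm_eq_abs]
    show |avg (⟨n, m, a⟩ : SW V) (ch T) - ∫ w, ch T w ∂(haarK Γ)| < ε
    rcases T.eq_empty_or_nonempty with rfl | hTn
    · have h5 : avg (⟨n, m, a⟩ : SW V) (ch (∅ : Finset (Γ × ℕ))) = 1 := by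
        unfold avg
        simp only [ch_empty]
        rw [Finset.sum_const, Finset.card_univ, nsmul_eq_mul, mul_one, div_self]
        exact_mod_cast Fintype.card_ne_zero
      have h6 : ∫ w, ch (∅ : Finset (Γ × ℕ)) w ∂(haarK Γ) = 1 := by
        simp only [ch_empty]
        simp
      rw [h5, h6, sub_self, abs_zero]
      exact hε
    · rw [integral_ch T hTn, sub_zero]
      exact ha T hT hTn
  exact hUs h4

end Pool.Agent.Y761.EV
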