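import Pool.Agent.Y316.EV.Stm

set_option autoImplicit false

/-!
# EV-ERG: a free ergodic action with a continuous character
-/

namespace Pool.Agent.Y761.EV

open MeasureTheory Set Filter Topology Pool.Agent.Y316.PC Pool.Agent.Y316.EV

section core

variable {Γ : Type} [Group Γ] {C : Type} [Group C]

/-- The space `K × C`. -/
def XX (_j : Γ →* C) : Type := KK Γ × C

variable (j : Γ →* C)

instance : MulAction (GG Γ) (XX j) where
  smul g x := ((g.1 + sh g.2 x.1, j g.2 * x.2) : KK Γ × C)
  one_smul x := by
    show ((0 + sh (1 : Γ) x.1, j (1 : Γ) * x.2) : KK Γ × C) = x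
    rw [sh_one, zero_add, map_one, one_mul]
    rfl
  mul_smul g h x := by
    show (((g * h).1 + sh (g * h).2 x.1, j (g * h).2 * x.2) : KK Γ × C) =
      (g.1 + sh g.2 (h.1 + sh h.2 x.1), j g.2 * (j h.2 * x.2))
    rw [GG.mul_fst, GG.mul_snd, sh_add, sh_mul, map_mul, add_assoc, mul_assoc]

theorem smul_eq (g : GG Γ) (x : XX j) :
    g • x = (((g.1 + sh g.2 x.1, j g.2 * x.2) : KK Γ × C) : XX j) := rfl

variable [TopologicalSpace C]

instance : TopologicalSpace (XX j) := inferInstanceAs (TopologicalSpace (KK Γ × C))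

instance [CompactSpace C] : CompactSpace (XX j) := inferInstanceAs (CompactSpace (KK Γ × C))

instance [T2Space C] : T2Space (XX j) := inferInstanceAs (T2Space (KK Γ × C))

instance [Countable Γ] [SecondCountableTopology C] : SecondCountableTopology (XX j) :=
  inferInstanceAs (SecondCountableTopology (KK Γ × C))

instance [IsTopologicalGroup C] [TopologicalSpace Γ] [DiscreteTopology Γ] :
    ContinuousSMul (GG Γ) (XX j) := by
  constructor
  have h1 : Continuous (fun z : GG Γ × XX j => z.1.1) :=
    (continuous_fst (X := KK Γ) (Y := Γ)).comp continuous_fst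
  have h2 : Continuous (fun z : GG Γ × XX j => z.1.2) :=
    (continuous_snd (X := KK Γ) (Y := Γ)).comp continuous_fst
  have h3 : Continuous (fun z : Γ × KK Γ => sh z.1 z.2) := by
    rw [continuous_prod_of_discrete_left]
    exact fun γ => continuous_sh γ
  have h4 : Continuous (fun z : GG Γ × XX j => z.2.1) :=
    (continuous_fst (X := KK Γ) (Y := C)).comp continuous_snd
  have h5 : Continuous (fun z : GG Γ × XX j => z.2.2) :=
    (continuous_snd (X := KK Γ) (Y := C)).comp continuous_snd
  have h6 : Continuous (fun γ : Γ => j γ) := continuous_of_discreteTopology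
  exact (h1.add (h3.comp (h2.prodMk h4))).prodMk ((h6.comp h2).mul h5)

instance [MeasurableSpace C] : MeasurableSpace (XX j) := inferInstanceAs (MeasurableSpace (KK Γ × C))

instance [Countable Γ] [MeasurableSpace C] [BorelSpace C] [SecondCountableTopology C] :
    BorelSpace (XX j) := inferInstanceAs (BorelSpace (KK Γ × C))

end core

theorem erg_core (Γ : Type) [Group Γ] [Countable Γ] [TopologicalSpace Γ] [DiscreteTopology Γ]
    (χ : Γ →* ℤˣ) (C : Type) [Group C] [TopologicalSpace C] [IsTopologicalGroup C]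
    [CompactSpace C] [T2Space C] [SecondCountableTopology C] (j : Γ →* C)
    (hj : Function.Injective j) (hd : DenseRange j) (s : C → ℝ) (hs : Continuous s)
    (hs1 : ∀ c, s c = 1 ∨ s c = -1) (hs2 : ∀ γ c, s (j γ * c) = (((χ γ : ℤˣ) : ℤ) : ℝ) * s c) :
    ∃ (X : Type) (_ : TopologicalSpace X) (_ : PolishSpace X) (_ : MeasurableSpace X)
      (_ : BorelSpace X) (_ : MulAction (GG Γ) X) (_ : ContinuousSMul (GG Γ) X)
      (μ : ProbabilityMeasure X) (ρ : X → X → ℝ) (σ : X → ℝ),
      ErgodicSMul (GG Γ) X (μ : Measure X) ∧ (∀ (x : X) (g : GG Γ), g • x = x → g = 1) ∧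
      IsGenerating (GG Γ) ρ ∧ Continuous σ ∧ (∀ x, σ x = 1 ∨ σ x = -1) ∧
      ∀ (g : GG Γ) (x : X), σ (g • x) = (((χ g.2 : ℤˣ) : ℤ) : ℝ) * σ x := by
  classical
  borelize C
  let m : Measure C := Measure.haarMeasure (⊤ : TopologicalSpace.PositiveCompacts C)
  have hmh : m.IsHaarMeasure := inferInstanceAs (Measure.haarMeasure _).IsHaarMeasure
  have hmp : IsProbabilityMeasure m := ⟨by
    have h := Measure.haarMeasure_self (K₀ := (⊤ : TopologicalSpace.PositiveCompacts C))
    simpa [m] using h⟩
  let μ0 : Measure (KK Γ × C) := (haarK Γ).prod m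
  let μ : Measure (XX j) := μ0
  have hμp : IsProbabilityMeasure μ := inferInstanceAs (IsProbabilityMeasure ((haarK Γ).prod m))
  let hmet : MetricSpace (XX j) := TopologicalSpace.metrizableSpaceMetric (XX j)
  have hpol : PolishSpace (XX j) := inferInstance
  refine ⟨XX j, inferInstance, hpol, inferInstance, inferInstance, inferInstance, inferInstance,
    ⟨μ, hμp⟩, fun x y => dist x y, fun x => s x.2, ?_, ?_, ?_, ?_, fun x => hs1 x.2, ?_⟩
  · -- ergodicity
    have hmp0 : ∀ g : GG Γ, MeasurePreserving (fun x : XX j => g • x) μ μ := by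
      intro g
      have h1 : MeasurePreserving (fun k : KK Γ => g.1 + sh g.2 k) (haarK Γ) (haarK Γ) :=
        (measurePreserving_add_left (haarK Γ) g.1).comp (measurePreserving_sh g.2)
      have h2 : MeasurePreserving (fun c : C => j g.2 * c) m m :=
        measurePreserving_mul_left m (j g.2)
      exact h1.prod h2
    have hinv : SMulInvariantMeasure (GG Γ) (XX j) μ :=
      ⟨fun g S hS => (hmp0 g).measure_preimage hS.nullMeasurableSet⟩
    have hsnd : MeasurePreserving (fun x : XX j => x.2) μ m := by
      have : MeasurePreserving (Prod.snd : KK Γ × C → C) ((haarK Γ).prod m) m :=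
        measurePreserving_snd
      exact this
    refine { toSMulInvariantMeasure := hinv, aeconst_of_forall_preimage_smul_ae_eq := ?_ }
    intro S hS hinvS
    have hS0 : MeasurableSet (S : Set (KK Γ × C)) := hS
    -- the measure of the fibres
    let b : C → ENNReal := fun c => haarK Γ {k | ((k, c) : KK Γ × C) ∈ S}
    have hb : Measurable b := measurable_measure_prodMk_right hS0
    let B : Set C := b ⁻¹' {1}
    have hB : MeasurableSet B := hb (measurableSet_singleton 1)
    -- invariance under `K`
    have hfub : ∀ᵐ x ∂μ, ∀ᵐ k ∂(haarK Γ), (((k + x.1, x.2) : KK Γ × C) ∈ S ↔ x ∈ S) := by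
      have hmeas : MeasurableSet {z : XX j × KK Γ |
          (((z.2 + z.1.1, z.1.2) : KK Γ × C) ∈ S ↔ z.1 ∈ S)} := by
        have h1 : Measurable fun z : XX j × KK Γ => ((z.2 + z.1.1, z.1.2) : KK Γ × C) := by
          have h2 : Measurable fun z : XX j × KK Γ => z.1.1 :=
            (measurable_fst (α := KK Γ) (β := C)).comp measurable_fst
          have h3 : Measurable fun z : XX j × KK Γ => z.1.2 :=
            (measurable_snd (α := KK Γ) (β := C)).comp measurable_fst
          exact (measurable_snd.add h2).prodMk h3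
        exact ((hS0.preimage h1).mem.iff (hS.preimage measurable_fst).mem).setOf
      rw [Measure.ae_ae_comm hmeas]
      refine ae_of_all _ fun k => ?_
      filter_upwards [(hinvS (ik k)).mem_iff] with x hx
      have h4 : (ik k : GG Γ) • x = ((k + x.1, x.2) : KK Γ × C) := by
        rw [smul_eq]
        show ((k + sh (1 : Γ) x.1, j (1 : Γ) * x.2) : KK Γ × C) = _
        rw [sh_one, map_one, one_mul]
      rw [← h4]
      exact hx
    have hSB : S =ᵐ[μ] (fun x : XX j => x.2) ⁻¹' B := by
      rw [eventuallyEq_set]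
      filter_upwards [hfub] with x hx
      have h1 : b x.2 = haarK Γ {k | ((k + x.1, x.2) : KK Γ × C) ∈ S} := by
        have h2 := measure_preimage_add_right (haarK Γ) x.1 {k | ((k, x.2) : KK Γ × C) ∈ S}
        exact h2.symm
      constructor
      · intro hxS
        show b x.2 = 1
        have h4 : {k | ((k + x.1, x.2) : KK Γ × C) ∈ S} =ᵐ[haarK Γ] univ := by
          rw [eventuallyEq_univ]
          filter_upwards [hx] with k hk
          exact hk.2 hxS
        rw [h1, measure_congr h4]
        exact measure_univ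
      · intro hxB
        have h3 : b x.2 = 1 := hxB
        by_contra hxS
        have h4 : haarK Γ {k | ((k + x.1, x.2) : KK Γ × C) ∈ S} = 0 := by
          rw [measure_eq_zero_iff_ae_notMem]
          filter_upwards [hx] with k hk hk2
          exact hxS (hk.1 hk2)
        rw [h1, h4] at h3
        exact zero_ne_one h3
    have hBinv : ∀ γ : Γ, (fun c : C => j γ * c) ⁻¹' B =ᵐ[m] B := by
      intro γ
      have h1 : (fun x : XX j => (ig γ : GG Γ) • x) ⁻¹' S =ᵐ[μ] S := hinvS (ig γ)
      have h2 : (fun x : XX j => (ig γ : GG Γ) • x) ⁻¹' S =ᵐ[μ]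
          (fun x : XX j => (ig γ : GG Γ) • x) ⁻¹' ((fun x : XX j => x.2) ⁻¹' B) :=
        (hmp0 (ig γ)).quasiMeasurePreserving.preimage_ae_eq hSB
      have h3 : (fun x : XX j => x.2) ⁻¹' ((fun c : C => j γ * c) ⁻¹' B) =ᵐ[μ]
          (fun x : XX j => x.2) ⁻¹' B := (h2.symm.trans h1).trans hSB
      rw [eventuallyEq_set] at h3 ⊢
      rw [← hsnd.map_eq, ae_map_iff hsnd.measurable.aemeasurable]
      · exact h3
      · have h5 : MeasurableSet ((fun c : C => j γ * c) ⁻¹' B) :=
          hB.preimage (measurable_const_mul (j γ))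
        exact (h5.mem.iff hB.mem).setOf
    have hBc : EventuallyConst B (ae m) := by
      refine aeconst_of_dense_setOfPred_preimage_smul_ae (M := C) hB.nullMeasurableSet ?_
      exact Dense.mono (range_subset_iff.2 hBinv) hd
    exact (hBc.comp_tendsto hsnd.quasiMeasurePreserving.tendsto_ae).congr hSB.symm
  · -- freeness
    intro x g hg
    have h1 : g.1 + sh g.2 x.1 = x.1 := congrArg Prod.fst hg
    have h2 : j g.2 * x.2 = x.2 := congrArg Prod.snd hg
    have h3 : g.2 = 1 := by
      apply hj
      rw [map_one]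
      exact mul_eq_right.1 h2
    rw [h3, sh_one] at h1
    exact GG.ext' (add_eq_right.1 h1) h3
  · refine ⟨dist_self, dist_comm, dist_triangle, ?_, continuous_dist, ?_⟩
    · obtain ⟨B, hB⟩ := Metric.isBounded_iff.1 (isCompact_univ (X := XX j)).isBounded
      exact ⟨B, fun x y => hB (mem_univ x) (mem_univ y)⟩
    · intro x y hxy
      refine ⟨1, ?_⟩
      rw [one_smul, one_smul]
      exact dist_pos.2 hxy
  · exact hs.comp (continuous_snd (X := KK Γ) (Y := C))
  · intro g x
    exact hs2 g.2 x.2

/-- EV-ERG -/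
theorem erg : S_ERG := by
  intro Γ _ _ _ _ Q _ _ π hπ χ
  let hQt : ∀ n, TopologicalSpace (Q n) := fun _ => ⊥
  have hQd : ∀ n, DiscreteTopology (Q n) := fun _ => ⟨rfl⟩
  let j0 : Γ →* (ℤˣ × ∀ n, Q n) := χ.prod (MonoidHom.pi π)
  let H : Subgroup (ℤˣ × ∀ n, Q n) := j0.range.topologicalClosure
  have hmem : ∀ γ, j0 γ ∈ H := fun γ =>
    subset_closure (MonoidHom.mem_range.2 ⟨γ, rfl⟩)
  let j : Γ →* H := j0.codRestrict H hmem
  have hHc : IsClosed (H : Set (ℤˣ × ∀ n, Q n)) := j0.range.isClosed_topologicalClosure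
  have hHcp : CompactSpace H := isCompact_iff_compactSpace.1 hHc.isCompact
  have hinj : Function.Injective j := by
    rw [injective_iff_map_eq_one]
    intro γ hγ
    apply hπ
    intro n
    have h1 : j0 γ = 1 := congrArg Subtype.val hγ
    exact congrFun (congrArg Prod.snd h1) n
  have hdense : DenseRange j := by
    rw [DenseRange, Subtype.dense_iff]
    intro c hc
    have h1 : (Subtype.val '' Set.range j : Set (ℤˣ × ∀ n, Q n)) = (j0.range : Set _) := by
      ext y
      constructor
      · rintro ⟨_, ⟨γ, rfl⟩, rfl⟩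
        exact ⟨γ, rfl⟩
      · rintro ⟨γ, rfl⟩
        exact ⟨j γ, ⟨γ, rfl⟩, rfl⟩
    exact (congrArg closure h1).superset hc
  have hH2 : SecondCountableTopology H :=
    TopologicalSpace.Subtype.secondCountableTopology (H : Set (ℤˣ × ∀ n, Q n))
  refine erg_core Γ χ H j hinj hdense (fun c => (((c.1.1 : ℤˣ) : ℤ) : ℝ)) ?_ ?_ ?_
  · have h1 : Continuous fun u : ℤˣ => ((u : ℤ) : ℝ) := continuous_of_discreteTopology
    exact h1.comp (continuous_fst.comp continuous_subtype_val)
  · intro c
    rcases Int.units_eq_one_or c.1.1 with h | h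
    · left
      rw [h]
      simp
    · right
      rw [h]
      simp
  · intro γ c
    show ((((χ γ) * c.1.1 : ℤˣ) : ℤ) : ℝ) = _
    push_cast
    ring

end Pool.Agent.Y761.EV
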