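import Pool.Agent.Y316.EV.Stm

set_option autoImplicit false

/-!
# EV-FREE: elements of a compact subset of `K` without zero move the points uniformly
-/

namespace Pool.Agent.Y761.EV

open MeasureTheory Set Filter Topology Pool.Agent.Y316.PC Pool.Agent.Y316.EV

theorem continuous_ik {Γ : Type} [Group Γ] [TopologicalSpace Γ] :
    Continuous (ik : KK Γ → GG Γ) := by
  have h : Continuous (fun k : KK Γ => ((k, (1 : Γ)) : KK Γ × Γ)) :=
    continuous_id.prodMk continuous_const
  exact h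

theorem ik_ne_one {Γ : Type} [Group Γ] {k : KK Γ} (hk : k ≠ 0) : (ik k : GG Γ) ≠ 1 := by
  intro h
  exact hk (congrArg Prod.fst h)

/-- EV-FREE -/
theorem free : S_FREE := by
  classical
  intro Γ _ _ _ _ X _ _ _ _ _ _ μ ρ hρ hfree D hD h0D θ hθ
  have hsep : TopologicalSpace.SeparableSpace (GG Γ) :=
    inferInstanceAs (TopologicalSpace.SeparableSpace (KK Γ × Γ))
  have hne : Nonempty (GG Γ) := ⟨1⟩
  set gs : ℕ → GG Γ := TopologicalSpace.denseSeq (GG Γ) with hgs
  have hdense : DenseRange gs := TopologicalSpace.denseRange_denseSeq (GG Γ)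
  set A : ℕ → Set X := fun n => {x | ∀ κ ∈ D, ∃ i ≤ n,
    1 / ((n : ℝ) + 1) < ρ (gs i • (ik κ : GG Γ) • x) (gs i • x)} with hA
  have hcont : ∀ i : ℕ, Continuous fun z : X × KK Γ =>
      ρ (gs i • (ik z.2 : GG Γ) • z.1) (gs i • z.1) := by
    intro i
    have h1 : Continuous fun z : X × KK Γ => (ik z.2 : GG Γ) • z.1 :=
      (continuous_ik.comp continuous_snd).smul continuous_fst
    have h2 : Continuous fun z : X × KK Γ =>
        ((gs i • (ik z.2 : GG Γ) • z.1, gs i • z.1) : X × X) :=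
      (h1.const_smul (gs i)).prodMk (continuous_fst.const_smul (gs i))
    exact hρ.continuous.comp h2
  have hopen : ∀ n : ℕ, IsOpen {z : X × KK Γ | ∃ i ≤ n,
      1 / ((n : ℝ) + 1) < ρ (gs i • (ik z.2 : GG Γ) • z.1) (gs i • z.1)} := by
    intro n
    have h1 : {z : X × KK Γ | ∃ i ≤ n,
        1 / ((n : ℝ) + 1) < ρ (gs i • (ik z.2 : GG Γ) • z.1) (gs i • z.1)} =
        ⋃ i ∈ {i : ℕ | i ≤ n}, {z : X × KK Γ |
          1 / ((n : ℝ) + 1) < ρ (gs i • (ik z.2 : GG Γ) • z.1) (gs i • z.1)} := by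
      ext z
      simp
    rw [h1]
    exact isOpen_biUnion fun i _ => isOpen_lt continuous_const (hcont i)
  have hAopen : ∀ n, IsOpen (A n) := by
    intro n
    rw [isOpen_iff_eventually]
    intro x hx
    refine hD.eventually_forall_of_forall_eventually (P := fun (x : X) (κ : KK Γ) => ∃ i ≤ n,
      1 / ((n : ℝ) + 1) < ρ (gs i • (ik κ : GG Γ) • x) (gs i • x)) ?_
    intro κ hκ
    exact (hopen n).mem_nhds (hx κ hκ)
  have hstep : ∀ {n m : ℕ}, n ≤ m → 1 / ((m : ℝ) + 1) ≤ 1 / ((n : ℝ) + 1) := by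
    intro n m hnm
    apply one_div_le_one_div_of_le (by positivity)
    have : (n : ℝ) ≤ m := by exact_mod_cast hnm
    linarith
  have hAmono : Monotone A := by
    intro n m hnm x hx κ hκ
    obtain ⟨i, hi, h1⟩ := hx κ hκ
    exact ⟨i, hi.trans hnm, (hstep hnm).trans_lt h1⟩
  have hcover : ∀ x : X, (∀ g : GG Γ, g • x = x → g = 1) → x ∈ ⋃ n, A n := by
    intro x hx
    set U : ℕ → Set (KK Γ) := fun n => {κ | ∃ i ≤ n,
      1 / ((n : ℝ) + 1) < ρ (gs i • (ik κ : GG Γ) • x) (gs i • x)} with hU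
    have hUo : ∀ n, IsOpen (U n) := by
      intro n
      exact (hopen n).preimage (Continuous.prodMk_right x)
    have hUm : Monotone U := by
      intro n m hnm κ hκ
      obtain ⟨i, hi, h1⟩ := hκ
      exact ⟨i, hi.trans hnm, (hstep hnm).trans_lt h1⟩
    have hDU : D ⊆ ⋃ n, U n := by
      intro κ hκ
      have hκ0 : κ ≠ 0 := fun h => h0D (h ▸ hκ)
      have h1 : (ik κ : GG Γ) • x ≠ x := fun h => ik_ne_one hκ0 (hx _ h)
      obtain ⟨g, hg⟩ := hρ.generating _ _ h1
      have hc : Continuous fun g : GG Γ => ρ (g • (ik κ : GG Γ) • x) (g • x) := by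
        have h2 : Continuous fun g : GG Γ => ((g • (ik κ : GG Γ) • x, g • x) : X × X) :=
          (continuous_id.smul continuous_const).prodMk (continuous_id.smul continuous_const)
        exact hρ.continuous.comp h2
      have ho : IsOpen {g : GG Γ | 0 < ρ (g • (ik κ : GG Γ) • x) (g • x)} :=
        isOpen_lt continuous_const hc
      obtain ⟨i, hi⟩ := hdense.exists_mem_open ho ⟨g, hg⟩
      have hi' : 0 < ρ (gs i • (ik κ : GG Γ) • x) (gs i • x) := hi
      obtain ⟨k, hk⟩ := exists_nat_one_div_lt hi'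
      refine mem_iUnion.2 ⟨max i k, i, le_max_left _ _, ?_⟩
      exact (hstep (le_max_right i k)).trans_lt hk
    obtain ⟨n, hn⟩ := hD.elim_directed_cover U hUo hDU hUm.directed_le
    exact mem_iUnion.2 ⟨n, fun κ hκ => hn hκ⟩
  have hfull : (μ : Measure X) (⋃ n, A n) = 1 := by
    have h1 : (⋃ n, A n) =ᵐ[(μ : Measure X)] univ := by
      rw [eventuallyEq_univ]
      filter_upwards [hfree] with x hx
      exact hcover x hx
    rw [measure_congr h1]
    exact measure_univ
  have htend : Tendsto (fun n => ((μ : Measure X) (A n)).toReal) atTop (𝓝 1) := by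
    have h1 := tendsto_measure_iUnion_atTop (μ := (μ : Measure X)) hAmono
    rw [hfull] at h1
    have h2 := (ENNReal.tendsto_toReal ENNReal.one_ne_top).comp h1
    rw [ENNReal.toReal_one] at h2
    exact h2
  obtain ⟨n, hn⟩ := (htend.eventually (lt_mem_nhds (show (1 : ℝ) - θ < 1 by linarith))).exists
  refine ⟨(Finset.range (n + 1)).image gs, 1 / ((n : ℝ) + 1), A n, by positivity, hAopen n, hn, ?_⟩
  intro x hx κ hκ
  obtain ⟨i, hi, h1⟩ := hx κ hκ
  exact ⟨gs i, Finset.mem_image_of_mem _ (Finset.mem_range.2 (Nat.lt_succ_of_le hi)), h1⟩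

end Pool.Agent.Y761.EV
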