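import Pool.Agent.Y316.EV.Stm2
import Pool.Agent.Y316.EV.Law

set_option autoImplicit false

/-!
# EV-MODEL, part 1: characters and the second moment
-/

namespace Pool.Agent.Y761.EV

open MeasureTheory Set Filter Topology Pool.Agent.Y316.PC Pool.Agent.Y316.EV

/-- the sign of an element of `ℤ/2` -/
def sg (x : ZMod 2) : ℝ := if x = 0 then 1 else -1

theorem zmod_two (x : ZMod 2) : x = 0 ∨ x = 1 := by
  revert x
  decide

theorem sg_zero : sg 0 = 1 := if_pos rfl

theorem sg_one : sg 1 = -1 := if_neg (by decide)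

theorem sg_add (x y : ZMod 2) : sg (x + y) = sg x * sg y := by
  have h2 : (1 : ZMod 2) + 1 = 0 := by decide
  rcases zmod_two x with rfl | rfl <;> rcases zmod_two y with rfl | rfl
  · rw [add_zero, sg_zero]; norm_num
  · rw [zero_add, sg_zero]; norm_num
  · rw [add_zero, sg_zero]; norm_num
  · rw [h2, sg_zero, sg_one]; norm_num

theorem sg_mul_self (x : ZMod 2) : sg x * sg x = 1 := by
  rcases zmod_two x with rfl | rfl
  · rw [sg_zero]; norm_num
  · rw [sg_one]; norm_num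

/-- the characters of `K` -/
def ch {Γ : Type} (T : Finset (Γ × ℕ)) (w : KK Γ) : ℝ := ∏ z ∈ T, sg (w z)

section ch

variable {Γ : Type}

theorem ch_add (T : Finset (Γ × ℕ)) (w w' : KK Γ) : ch T (w + w') = ch T w * ch T w' := by
  unfold ch
  rw [← Finset.prod_mul_distrib]
  exact Finset.prod_congr rfl fun z _ => sg_add _ _

theorem ch_mul_self (T : Finset (Γ × ℕ)) (w : KK Γ) : ch T w * ch T w = 1 := by
  unfold ch
  rw [← Finset.prod_mul_distrib]
  exact Finset.prod_eq_one fun z _ => sg_mul_self _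

theorem abs_ch (T : Finset (Γ × ℕ)) (w : KK Γ) : |ch T w| = 1 := by
  have h := ch_mul_self T w
  have h2 : |ch T w| * |ch T w| = 1 := by rw [abs_mul_abs_self, h]
  nlinarith [abs_nonneg (ch T w)]

theorem continuous_sg : Continuous sg := continuous_of_discreteTopology

theorem continuous_ch (T : Finset (Γ × ℕ)) : Continuous (ch T : KK Γ → ℝ) :=
  continuous_finsetProd _ fun z _ => continuous_sg.comp (continuous_apply z)

theorem ch_empty (w : KK Γ) : ch (∅ : Finset (Γ × ℕ)) w = 1 := Finset.prod_empty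

theorem integral_ch [Countable Γ] (T : Finset (Γ × ℕ)) (hT : T.Nonempty) :
    ∫ w, ch T w ∂(haarK Γ) = 0 := by
  classical
  obtain ⟨z0, hz0⟩ := hT
  set e : KK Γ := Pi.single z0 1 with he
  have h1 : ch T e = -1 := by
    unfold ch
    rw [Finset.prod_eq_single z0]
    · rw [he, Pi.single_eq_same, sg_one]
    · intro z _ hz
      rw [he, Pi.single_eq_of_ne hz, sg_zero]
    · intro h
      exact absurd hz0 h
  have h2 : ∫ w, ch T w ∂(haarK Γ) = ∫ w, ch T (e + w) ∂(haarK Γ) :=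
    (integral_add_left_eq_self (fun w => ch T w) e).symm
  have h3 : ∫ w, ch T (e + w) ∂(haarK Γ) = -∫ w, ch T w ∂(haarK Γ) := by
    rw [← integral_neg]
    refine integral_congr_ae (Eventually.of_forall fun w => ?_)
    show ch T (e + w) = -ch T w
    rw [ch_add, h1]
    ring
  linarith

end ch

section second

variable {Γ V : Type} [Group Γ] [MulAction Γ V] {m : ℕ}

theorem kap_add (a b : V → Fin m → ZMod 2) (v : V) :
    (kap (a + b) v : KK Γ) = kap a v + kap b v := by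
  funext z
  show (if h : z.2 < m then (a + b) (z.1⁻¹ • v) ⟨z.2, h⟩ else 0) =
    (if h : z.2 < m then a (z.1⁻¹ • v) ⟨z.2, h⟩ else 0) +
      (if h : z.2 < m then b (z.1⁻¹ • v) ⟨z.2, h⟩ else 0)
  by_cases h : z.2 < m
  · rw [dif_pos h, dif_pos h, dif_pos h]
    rfl
  · rw [dif_neg h, dif_neg h, dif_neg h, add_zero]

theorem pair_zero [Fintype V] [DecidableEq V] (T : Finset (Γ × ℕ)) (hT : ∀ z ∈ T, z.2 < m)
    {z0 : Γ × ℕ} (h0 : z0 ∈ T) (v w : V)
    (hv : ∀ z ∈ T, z.1⁻¹ • v = z0.1⁻¹ • v → z.1 = z0.1)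
    (hw : ∀ z ∈ T, z.1⁻¹ • w ≠ z0.1⁻¹ • v) :
    ∑ a : V → Fin m → ZMod 2, ch T (kap a v) * ch T (kap a w) = 0 := by
  set e : V → Fin m → ZMod 2 := Pi.single (z0.1⁻¹ • v) (Pi.single ⟨z0.2, hT z0 h0⟩ 1) with he
  have h1 : ch T (kap e v) = -1 := by
    unfold ch
    rw [Finset.prod_eq_single z0]
    · have : (kap e v : KK Γ) z0 = 1 := by
        show (if h : z0.2 < m then e (z0.1⁻¹ • v) ⟨z0.2, h⟩ else 0) = 1
        rw [dif_pos (hT z0 h0), he, Pi.single_eq_same, Pi.single_eq_same]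
      rw [this, sg_one]
    · intro z hz hne
      have : (kap e v : KK Γ) z = 0 := by
        show (if h : z.2 < m then e (z.1⁻¹ • v) ⟨z.2, h⟩ else 0) = 0
        rw [dif_pos (hT z hz), he]
        by_cases h : z.1⁻¹ • v = z0.1⁻¹ • v
        · have h2 := hv z hz h
          have h3 : z.2 ≠ z0.2 := fun h3 => hne (Prod.ext h2 h3)
          rw [h, Pi.single_eq_same, Pi.single_eq_of_ne]
          intro h4
          exact h3 (congrArg Fin.val h4)
        · rw [Pi.single_eq_of_ne h]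
          rfl
      rw [this, sg_zero]
    · intro h
      exact absurd h0 h
  have h2 : ch T (kap e w) = 1 := by
    unfold ch
    refine Finset.prod_eq_one fun z hz => ?_
    have : (kap e w : KK Γ) z = 0 := by
      show (if h : z.2 < m then e (z.1⁻¹ • w) ⟨z.2, h⟩ else 0) = 0
      rw [dif_pos (hT z hz), he, Pi.single_eq_of_ne (hw z hz)]
      rfl
    rw [this, sg_zero]
  have h3 : ∑ a : V → Fin m → ZMod 2, ch T (kap a v) * ch T (kap a w) =
      ∑ a : V → Fin m → ZMod 2, ch T (kap (a + e) v) * ch T (kap (a + e) w) :=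
    (Equiv.sum_comp (Equiv.addRight e)
      (fun a : V → Fin m → ZMod 2 => ch T (kap a v) * ch T (kap a w))).symm
  have h4 : ∑ a : V → Fin m → ZMod 2, ch T (kap (a + e) v) * ch T (kap (a + e) w) =
      -∑ a : V → Fin m → ZMod 2, ch T (kap a v) * ch T (kap a w) := by
    rw [← Finset.sum_neg_distrib]
    refine Finset.sum_congr rfl fun a _ => ?_
    rw [kap_add, kap_add, ch_add, ch_add, h1, h2]
    ring
  linarith

theorem second [Fintype V] [DecidableEq V] (T : Finset (Γ × ℕ)) (hT : ∀ z ∈ T, z.2 < m)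
    (hne : T.Nonempty) (F : Finset Γ) (hF : ∀ z ∈ T, z.1⁻¹ ∈ F) :
    ∑ a : V → Fin m → ZMod 2, (∑ v, ch T (kap a v)) ^ 2 ≤
      (Fintype.card (V → Fin m → ZMod 2) : ℝ) * ((Fintype.card V : ℝ) *
        (T.card + ({v : V | ¬ InjOn (fun γ : Γ => γ • v) (F : Set Γ)}.ncard : ℝ))) := by
  classical
  obtain ⟨z0, h0⟩ := hne
  set M : ℝ := (Fintype.card (V → Fin m → ZMod 2) : ℝ) with hM
  have hM0 : 0 ≤ M := Nat.cast_nonneg _
  have hle : ∀ v w : V, ∑ a : V → Fin m → ZMod 2, ch T (kap a v) * ch T (kap a w) ≤ M := by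
    intro v w
    have h1 : ∑ a : V → Fin m → ZMod 2, ch T (kap a v) * ch T (kap a w) ≤
        ∑ _a : V → Fin m → ZMod 2, (1 : ℝ) := by
      refine Finset.sum_le_sum fun a _ => ?_
      refine (le_abs_self _).trans ?_
      rw [abs_mul, abs_ch, abs_ch, mul_one]
    rw [Finset.sum_const, Finset.card_univ, nsmul_eq_mul, mul_one] at h1
    exact h1
  have hexp : ∑ a : V → Fin m → ZMod 2, (∑ v, ch T (kap a v)) ^ 2 =
      ∑ v : V, ∑ w : V, ∑ a : V → Fin m → ZMod 2, ch T (kap a v) * ch T (kap a w) := by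
    have h1 : ∀ a : V → Fin m → ZMod 2, (∑ v : V, ch T (kap a v)) ^ 2 =
        ∑ v : V, ∑ w : V, ch T (kap a v) * ch T (kap a w) := by
      intro a
      rw [sq, Finset.sum_mul_sum]
    rw [Finset.sum_congr rfl fun a _ => h1 a, Finset.sum_comm]
    refine Finset.sum_congr rfl fun v _ => ?_
    rw [Finset.sum_comm]
  rw [hexp]
  set Bad : Finset V := Finset.univ.filter (fun v : V => ¬ InjOn (fun γ : Γ => γ • v) (F : Set Γ))
    with hBad
  have hBadc : ({v : V | ¬ InjOn (fun γ : Γ => γ • v) (F : Set Γ)}.ncard : ℝ) = Bad.card := by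
    rw [hBad, ← Set.ncard_coe_finset]
    congr 2
    ext v
    simp
  rw [hBadc]
  have hv : ∀ v : V, ∑ w : V, ∑ a : V → Fin m → ZMod 2, ch T (kap a v) * ch T (kap a w) ≤
      (T.card : ℝ) * M + if v ∈ Bad then (Fintype.card V : ℝ) * M else 0 := by
    intro v
    by_cases hb : v ∈ Bad
    · rw [if_pos hb]
      have h1 : ∑ w : V, ∑ a : V → Fin m → ZMod 2, ch T (kap a v) * ch T (kap a w) ≤
          ∑ _w : V, M := Finset.sum_le_sum fun w _ => hle v w
      rw [Finset.sum_const, Finset.card_univ, nsmul_eq_mul] at h1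
      have h2 : 0 ≤ (T.card : ℝ) * M := mul_nonneg (Nat.cast_nonneg _) hM0
      linarith
    · rw [if_neg hb, add_zero]
      have hinj : InjOn (fun γ : Γ => γ • v) (F : Set Γ) := by
        by_contra hc
        exact hb (Finset.mem_filter.2 ⟨Finset.mem_univ _, hc⟩)
      set W : Finset V := T.image (fun z => z.1 • z0.1⁻¹ • v) with hW
      have h1 : ∑ w : V, ∑ a : V → Fin m → ZMod 2, ch T (kap a v) * ch T (kap a w) =
          ∑ w ∈ W, ∑ a : V → Fin m → ZMod 2, ch T (kap a v) * ch T (kap a w) := by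
        symm
        refine Finset.sum_subset (Finset.subset_univ _) fun w _ hw => ?_
        refine pair_zero T hT h0 v w ?_ ?_
        · intro z hz h
          have h3 : z.1⁻¹ = z0.1⁻¹ := hinj (Finset.mem_coe.2 (hF z hz))
            (Finset.mem_coe.2 (hF z0 h0)) h
          exact inv_injective h3
        · intro z hz h
          apply hw
          refine Finset.mem_image.2 ⟨z, hz, ?_⟩
          show z.1 • z0.1⁻¹ • v = w
          rw [← h, smul_inv_smul]
      rw [h1]
      have h2 : ∑ w ∈ W, ∑ a : V → Fin m → ZMod 2, ch T (kap a v) * ch T (kap a w) ≤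
          ∑ _w ∈ W, M := Finset.sum_le_sum fun w _ => hle v w
      rw [Finset.sum_const, nsmul_eq_mul] at h2
      have h3 : (W.card : ℝ) ≤ T.card := by exact_mod_cast Finset.card_image_le
      exact h2.trans (mul_le_mul_of_nonneg_right h3 hM0)
  refine (Finset.sum_le_sum fun v _ => hv v).trans (le_of_eq ?_)
  rw [Finset.sum_add_distrib, Finset.sum_const, Finset.card_univ, nsmul_eq_mul,
    Finset.sum_ite_mem, Finset.univ_inter, Finset.sum_const, nsmul_eq_mul]
  ring

end second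

section family

variable {Γ : Type} [Group Γ] [Infinite Γ] {V : ℕ → Type} [∀ n, MulAction Γ (V n)]
  [∀ n, Fintype (V n)] [∀ n, Nonempty (V n)] {F : ℕ → Finset Γ}

omit [Group Γ] [Infinite Γ] in
theorem mem_eventually (hmono : Monotone F) (hex : ∀ γ, ∃ n, γ ∈ F n) (γ : Γ) :
    ∀ᶠ n in atTop, γ ∈ F n := by
  obtain ⟨n0, h0⟩ := hex γ
  filter_upwards [eventually_ge_atTop n0] with n hn
  exact hmono hn h0

omit [∀ n, Nonempty (V n)] in
theorem card_tendsto [∀ n, Nonempty (V n)] (hmono : Monotone F) (hex : ∀ γ, ∃ n, γ ∈ F n)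
    (hb : ∀ n, ({v : V n | ¬ InjOn (fun γ : Γ => γ • v) (F n)}.ncard : ℝ) ≤
      (1 / ((n : ℝ) + 1)) * (Fintype.card (V n) : ℝ)) :
    Tendsto (fun n => (Fintype.card (V n) : ℝ)) atTop atTop := by
  rw [tendsto_atTop]
  intro b
  obtain ⟨k, hk⟩ := exists_nat_ge b
  obtain ⟨E, hE⟩ := Infinite.exists_subset_card_eq Γ k
  have h1 : ∀ᶠ n in atTop, ∀ γ ∈ E, γ ∈ F n :=
    (Filter.eventually_all_finset E).2 fun γ _ => mem_eventually hmono hex γ
  filter_upwards [h1, eventually_ge_atTop 1] with n hn hn1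
  have hN : (0 : ℝ) < Fintype.card (V n) := by exact_mod_cast Fintype.card_pos
  have hgood : ∃ v : V n, InjOn (fun γ : Γ => γ • v) (F n : Set Γ) := by
    by_contra hc
    have h2 : {v : V n | ¬ InjOn (fun γ : Γ => γ • v) (F n : Set Γ)} = univ := by
      rw [Set.eq_univ_iff_forall]
      intro v hv
      exact hc ⟨v, hv⟩
    have h3 := hb n
    rw [h2, Set.ncard_univ, Nat.card_eq_fintype_card] at h3
    have h4 : (1 / ((n : ℝ) + 1)) * (Fintype.card (V n) : ℝ) < Fintype.card (V n) := by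
      have h5 : 1 / ((n : ℝ) + 1) < 1 := by
        have : (1 : ℝ) ≤ n := by exact_mod_cast hn1
        rw [div_lt_one (by linarith)]
        linarith
      nlinarith
    linarith
  obtain ⟨v, hv⟩ := hgood
  have h5 : E.card ≤ Fintype.card (V n) := by
    refine Finset.card_le_card_of_injOn (fun γ => γ • v) (fun _ _ => Finset.mem_coe.2 (Finset.mem_univ _)) ?_
    exact hv.mono fun γ hγ => hn γ hγ
  rw [hE] at h5
  have h6 : (k : ℝ) ≤ Fintype.card (V n) := by exact_mod_cast h5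
  exact hk.trans h6

theorem family (hmono : Monotone F) (hex : ∀ γ, ∃ n, γ ∈ F n)
    (hb : ∀ n, ({v : V n | ¬ InjOn (fun γ : Γ => γ • v) (F n)}.ncard : ℝ) ≤
      (1 / ((n : ℝ) + 1)) * (Fintype.card (V n) : ℝ))
    (I : Finset (Finset (Γ × ℕ))) {ε : ℝ} (hε : 0 < ε) :
    ∀ᶠ n in atTop, ∃ (m : ℕ) (a : V n → Fin m → ZMod 2), ∀ T ∈ I, T.Nonempty →
      |(∑ v, ch T (kap a v)) / (Fintype.card (V n) : ℝ)| < ε := by
  classical
  -- the words are long
  obtain ⟨m, hm⟩ : ∃ m : ℕ, ∀ T ∈ I, ∀ z ∈ T, z.2 < m := by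
    refine ⟨(I.sup fun T => T.sup fun z => z.2) + 1, fun T hT z hz => ?_⟩
    have h1 : T.sup (fun z => z.2) ≤ I.sup (fun T => T.sup fun z => z.2) :=
      Finset.le_sup (f := fun T : Finset (Γ × ℕ) => T.sup fun z => z.2) hT
    have h2 : z.2 ≤ T.sup (fun z => z.2) := Finset.le_sup (f := fun z : Γ × ℕ => z.2) hz
    omega
  have h1 : ∀ᶠ n in atTop, ∀ T ∈ I, ∀ z ∈ T, z.1⁻¹ ∈ F n :=
    (Filter.eventually_all_finset I).2 fun T _ =>
      (Filter.eventually_all_finset T).2 fun z _ => mem_eventually hmono hex _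
  have hcard := card_tendsto (V := V) hmono hex hb
  have h2 : Tendsto (fun n : ℕ => ∑ T ∈ I, ((T.card : ℝ) / (Fintype.card (V n) : ℝ) +
      1 / ((n : ℝ) + 1))) atTop (𝓝 (∑ _T ∈ I, (0 + 0))) := by
    refine tendsto_finsetSum _ fun T _ => ?_
    exact (hcard.const_div_atTop _).add tendsto_one_div_add_atTop_nhds_zero_nat
  rw [Finset.sum_const, add_zero, smul_zero] at h2
  have h3 := h2.eventually (gt_mem_nhds (show (0 : ℝ) < ε ^ 2 by positivity))
  filter_upwards [h1, h3] with n hn1 hn2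
  refine ⟨m, ?_⟩
  by_contra hc
  push Not at hc
  set N : ℝ := (Fintype.card (V n) : ℝ) with hN
  have hN0 : 0 < N := by rw [hN]; exact_mod_cast Fintype.card_pos
  set M : ℝ := (Fintype.card (V n → Fin m → ZMod 2) : ℝ) with hM
  have hM0 : 0 < M := by rw [hM]; exact_mod_cast Fintype.card_pos
  set I' : Finset (Finset (Γ × ℕ)) := I.filter (fun T => T.Nonempty) with hI'
  have h4 : ∀ a : V n → Fin m → ZMod 2, ε ^ 2 ≤
      ∑ T ∈ I', ((∑ v, ch T (kap a v)) / N) ^ 2 := by
    intro a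
    obtain ⟨T, hT, hTn, hle⟩ := hc a
    have h5 : ((∑ v, ch T (kap a v)) / N) ^ 2 ≤ ∑ T ∈ I', ((∑ v, ch T (kap a v)) / N) ^ 2 :=
      Finset.single_le_sum (f := fun T => ((∑ v, ch T (kap a v)) / N) ^ 2)
        (fun T _ => sq_nonneg _) (Finset.mem_filter.2 ⟨hT, hTn⟩)
    refine le_trans ?_ h5
    rw [← sq_abs ((∑ v, ch T (kap a v)) / N)]
    exact pow_le_pow_left₀ hε.le hle 2
  have h5 : M * ε ^ 2 ≤ ∑ a : V n → Fin m → ZMod 2,
      ∑ T ∈ I', ((∑ v, ch T (kap a v)) / N) ^ 2 := by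
    calc M * ε ^ 2 = ∑ _a : V n → Fin m → ZMod 2, ε ^ 2 := by
          rw [Finset.sum_const, Finset.card_univ, nsmul_eq_mul]
      _ ≤ _ := Finset.sum_le_sum fun a _ => h4 a
  rw [Finset.sum_comm] at h5
  have h6 : ∀ T ∈ I', ∑ a : V n → Fin m → ZMod 2, ((∑ v, ch T (kap a v)) / N) ^ 2 ≤
      M * ((T.card : ℝ) / N + 1 / ((n : ℝ) + 1)) := by
    intro T hT
    obtain ⟨hTI, hTn⟩ := Finset.mem_filter.1 hT
    have h7 := second (V := V n) (m := m) T (hm T hTI) hTn (F n) (hn1 T hTI)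
    have h8 : ∑ a : V n → Fin m → ZMod 2, ((∑ v, ch T (kap a v)) / N) ^ 2 =
        (∑ a : V n → Fin m → ZMod 2, (∑ v, ch T (kap a v)) ^ 2) / N ^ 2 := by
      rw [Finset.sum_div]
      refine Finset.sum_congr rfl fun a _ => ?_
      rw [div_pow]
    rw [h8, div_le_iff₀ (by positivity)]
    refine h7.trans ?_
    have h9 := hb n
    rw [← hN] at h9 ⊢
    have h10 : M * ((T.card : ℝ) / N + 1 / ((n : ℝ) + 1)) * N ^ 2 =
        M * (N * (T.card + 1 / ((n : ℝ) + 1) * N)) := by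
      field_simp
    rw [h10]
    refine mul_le_mul_of_nonneg_left (mul_le_mul_of_nonneg_left ?_ hN0.le) hM0.le
    linarith
  have h7 : ∑ T ∈ I', ∑ a : V n → Fin m → ZMod 2, ((∑ v, ch T (kap a v)) / N) ^ 2 ≤
      ∑ T ∈ I, M * ((T.card : ℝ) / N + 1 / ((n : ℝ) + 1)) := by
    refine (Finset.sum_le_sum h6).trans ?_
    refine Finset.sum_le_sum_of_subset_of_nonneg (Finset.filter_subset _ _) fun T _ _ => ?_
    have : (0 : ℝ) < (n : ℝ) + 1 := by positivity
    positivity
  rw [← Finset.mul_sum] at h7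
  have h8 : M * ε ^ 2 ≤ M * ∑ T ∈ I, ((T.card : ℝ) / N + 1 / ((n : ℝ) + 1)) := h5.trans h7
  have h9 := le_of_mul_le_mul_left h8 hM0
  linarith

end family

end Pool.Agent.Y761.EV
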